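import Pool.Agent.helper38.OV.Spec

set_option autoImplicit false

namespace Pool.Agent.OV

open Finset Real Pool.Agent.AT Pool.Agent.helper85.FC Pool.Agent.OM

theorem CU3_sm (M T : ℕ) (W : ℤ → ℝ) (hW : ∀ v, 0 ≤ W v ∧ W v ≤ 1) (v : ℤ) :
    0 ≤ sm M T W v ∧ sm M T W v ≤ 1 := by
  unfold sm
  constructor
  · exact div_nonneg (Finset.sum_nonneg fun τ _ => (hW _).1) (Nat.cast_nonneg _)
  · rcases Nat.eq_zero_or_pos T with h | h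
    · rw [h]
      simp
    · rw [div_le_one (by exact_mod_cast h)]
      refine (Finset.sum_le_sum fun τ _ => (hW _).2).trans ?_
      rw [Finset.sum_const, Finset.card_range, nsmul_eq_mul, mul_one]

theorem CU3_par (L Y M1 M A B T : ℕ) (κ : ℝ) (hL : 1 ≤ L) (hκ : 0 < κ) (hκ1 : κ ≤ 1) (hM1 : 1 ≤ M1)
    (hA : 1 ≤ A) (hAB : 64 * √(L : ℝ) * A ≤ κ ^ 2 * B) (hd : B * M1 ∣ M) (hY : M1 * B ≤ Y)
    (ht : κ * ((M : ℝ) * T) ≤ (A : ℝ) * Y) :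
    B ≤ Y ∧ 1 ≤ Y ∧ M = B * M1 * (M / (B * M1)) ∧
    ∃ t' : ℕ, 1 ≤ t' ∧ M1 * t' ≤ Y ∧ ((M / (B * M1) : ℕ) : ℝ) * T ≤ κ * t' ∧
      κ ^ 2 * ((M1 : ℝ) * B * t') ≤ 2 * ((A : ℝ) * Y) := by
  have hs : (1 : ℝ) ≤ √(L : ℝ) := by
    rw [Real.one_le_sqrt]
    exact_mod_cast hL
  have hA1 : (1 : ℝ) ≤ A := by exact_mod_cast hA
  have hM0 : (1 : ℝ) ≤ M1 := by exact_mod_cast hM1
  have hB0 : (0 : ℝ) ≤ B := Nat.cast_nonneg B
  have hκ2 : κ ^ 2 ≤ 1 := pow_le_one₀ hκ.le hκ1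
  have hκ0 : 0 < κ ^ 2 := by positivity
  have h5 : 64 * (A : ℝ) ≤ κ ^ 2 * B := by
    refine le_trans ?_ hAB
    nlinarith
  have hB64 : (64 : ℝ) ≤ B := by nlinarith
  have hBn : 64 ≤ B := by exact_mod_cast hB64
  have hY1 : (M1 : ℝ) * B ≤ Y := by exact_mod_cast hY
  have hY0 : (64 : ℝ) ≤ Y := by nlinarith
  have hYn : 64 ≤ Y := by exact_mod_cast hY0
  have hBY : B ≤ Y := le_trans (Nat.le_mul_of_pos_left _ hM1) hY
  have hMe : M = B * M1 * (M / (B * M1)) := (Nat.mul_div_cancel' hd).symm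
  refine ⟨hBY, by omega, hMe, ?_⟩
  generalize M / (B * M1) = e at hMe ⊢
  have hMr : (M : ℝ) = B * M1 * e := by exact_mod_cast hMe
  set w : ℝ := (A : ℝ) * Y / (κ ^ 2 * (M1 * (B : ℝ))) with hw
  have hD : 0 < κ ^ 2 * ((M1 : ℝ) * (B : ℝ)) := by positivity
  have hwe : w * (κ ^ 2 * ((M1 : ℝ) * (B : ℝ))) = (A : ℝ) * Y := by
    rw [hw]
    exact div_mul_cancel₀ _ hD.ne'
  have hw0 : 0 < w := by
    rw [hw]
    apply div_pos _ hD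
    nlinarith
  have hc1 : w ≤ (⌈w⌉₊ : ℝ) := Nat.le_ceil w
  have hc2 : (⌈w⌉₊ : ℝ) < w + 1 := Nat.ceil_lt_add_one hw0.le
  refine ⟨⌈w⌉₊, Nat.ceil_pos.2 hw0, ?_, ?_, ?_⟩
  · have h8 : (M1 : ℝ) * w ≤ Y / 64 := by
      have h9 : (M1 : ℝ) * w * (κ ^ 2 * (B : ℝ)) = (A : ℝ) * Y := by
        rw [← hwe]; ring
      have h10 : (A : ℝ) * Y ≤ Y / 64 * (κ ^ 2 * (B : ℝ)) := by
        have : 64 * (A : ℝ) * Y ≤ κ ^ 2 * (B : ℝ) * Y := mul_le_mul_of_nonneg_right h5 (by linarith)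
        linarith
      have h11 : 0 < κ ^ 2 * (B : ℝ) := by positivity
      exact le_of_mul_le_mul_right (h9.le.trans h10) h11
    have h12 : (M1 : ℝ) ≤ Y / 64 := by
      have : (M1 : ℝ) * 64 ≤ M1 * (B : ℝ) := mul_le_mul_of_nonneg_left hB64 (by linarith)
      linarith
    have h13 : (M1 : ℝ) * (⌈w⌉₊ : ℝ) ≤ M1 * (w + 1) :=
      mul_le_mul_of_nonneg_left hc2.le (by linarith)
    have h14 : (M1 : ℝ) * (⌈w⌉₊ : ℝ) ≤ Y := by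
      rw [mul_add, mul_one] at h13
      linarith
    exact_mod_cast h14
  · have h9 : (e : ℝ) * T * (κ * (M1 * (B : ℝ))) ≤ κ * w * (κ * (M1 * (B : ℝ))) := by
      calc (e : ℝ) * T * (κ * (M1 * (B : ℝ)))
          = κ * ((M : ℝ) * T) := by rw [hMr]; ring
        _ ≤ (A : ℝ) * Y := ht
        _ = κ * w * (κ * (M1 * (B : ℝ))) := by rw [← hwe]; ring
    have h10 : 0 < κ * ((M1 : ℝ) * (B : ℝ)) := by positivity
    have h11 := le_of_mul_le_mul_right h9 h10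
    refine h11.trans ?_
    exact mul_le_mul_of_nonneg_left hc1 hκ.le
  · have h8 : κ ^ 2 * ((M1 : ℝ) * (B : ℝ) * (⌈w⌉₊ : ℝ)) ≤ κ ^ 2 * ((M1 : ℝ) * (B : ℝ)) * (w + 1) := by
      rw [← mul_assoc]
      exact mul_le_mul_of_nonneg_left hc2.le hD.le
    have h9 : κ ^ 2 * ((M1 : ℝ) * (B : ℝ)) ≤ (A : ℝ) * Y := by
      have h11 : κ ^ 2 * ((M1 : ℝ) * (B : ℝ)) ≤ 1 * ((M1 : ℝ) * (B : ℝ)) :=
        mul_le_mul_of_nonneg_right hκ2 (by positivity)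
      have h12 : (Y : ℝ) ≤ (A : ℝ) * Y := by nlinarith
      linarith
    have h13 : κ ^ 2 * ((M1 : ℝ) * (B : ℝ)) * (w + 1) =
        (A : ℝ) * Y + κ ^ 2 * ((M1 : ℝ) * (B : ℝ)) := by
      rw [← hwe]; ring
    linarith

theorem CU3 (hUB3 : UB3_stmt) (hSD3 : SD3_stmt) : CU3_stmt := by
  classical
  intro L Y M1 M κ A B T hSq hM1 hcond W φ ψ hW hφ hψ sφ sψ
  have hSq' := hSq
  obtain ⟨hL, hκ, hκ1, hM1p, hA, _, _⟩ := hSq'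
  have hL0 : (0 : ℝ) < L := by exact_mod_cast hL
  have hs0 : 0 < √(L : ℝ) := Real.sqrt_pos.2 hL0
  have hs2 : √(L : ℝ) * √(L : ℝ) = L := Real.mul_self_sqrt hL0.le
  rcases Nat.lt_or_ge 1 L with hL2 | hL2
  swap
  · have he : Ico 1 L = ∅ := Finset.Ico_eq_empty_of_le hL2
    rw [he, Finset.sum_empty, abs_zero]
    positivity
  have hpar := fun m (hm : m ∈ Ico 1 L) => CU3_par L Y M1 M (A m) (B m) (T m) κ hL hκ hκ1 hM1p
    (hA m hm).1 (hA m hm).2 (hcond m hm).1 (hcond m hm).2.1 (hcond m hm).2.2.2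
  have hY1 : 1 ≤ Y := (hpar 1 (Finset.mem_Ico.2 ⟨le_rfl, hL2⟩)).2.1
  have hex : ∀ m : ℕ, ∃ t' : ℕ, m ∈ Ico 1 L → 1 ≤ t' ∧ M1 * t' ≤ Y ∧ ((M / (B m * M1) : ℕ) : ℝ) * T m ≤ κ * t' ∧
      κ ^ 2 * ((M1 : ℝ) * B m * t') ≤ 2 * ((A m : ℝ) * Y) := by
    intro m
    by_cases hm : m ∈ Ico 1 L
    · obtain ⟨t', ht'⟩ := (hpar m hm).2.2.2
      exact ⟨t', fun _ => ht'⟩
    · exact ⟨0, fun h => absurd h hm⟩
  choose T' hT' using hex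
  have e1 : ∀ m x y, gm L φ ψ m x y =
      gm L (fun i x => sm M1 (T' m) (φ i) x) ψ m x y +
      gm L (fun i x => φ i x - sm M1 (T' m) (φ i) x) ψ m x y := by
    intro m x y
    unfold gm
    rw [← Finset.sum_add_distrib]
    apply Finset.sum_congr rfl
    intro i _
    ring
  have e2 : ∑ m ∈ Ico 1 L, ∑ x ∈ XX (3 * Y) Y, ∑ y ∈ XX (3 * Y) Y, (W m ((B m : ℤ) * x - (A m : ℤ) * y) -
      sm M (T m) (W m) ((B m : ℤ) * x - (A m : ℤ) * y)) * gm L φ ψ m x y =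
      ∑ m ∈ Ico 1 L, ∑ x ∈ XX (3 * Y) Y, ∑ y ∈ XX (3 * Y) Y, (W m ((B m : ℤ) * x - (A m : ℤ) * y) -
      sm M (T m) (W m) ((B m : ℤ) * x - (A m : ℤ) * y)) * gm L (fun i x => sm M1 (T' m) (φ i) x) ψ m x y +
      ∑ m ∈ Ico 1 L, ∑ x ∈ XX (3 * Y) Y, ∑ y ∈ XX (3 * Y) Y, (W m ((B m : ℤ) * x - (A m : ℤ) * y) -
      sm M (T m) (W m) ((B m : ℤ) * x - (A m : ℤ) * y)) *
        gm L (fun i x => φ i x - sm M1 (T' m) (φ i) x) ψ m x y := by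
    rw [← Finset.sum_add_distrib]
    apply Finset.sum_congr rfl
    intro m _
    rw [← Finset.sum_add_distrib]
    apply Finset.sum_congr rfl
    intro x _
    rw [← Finset.sum_add_distrib]
    apply Finset.sum_congr rfl
    intro y _
    rw [e1, mul_add]
  have e3 := hSD3 L Y M1 M κ A B (fun m => M / (B m * M1)) T T' hL hκ hκ1 (fun m hm =>
    ⟨(hpar m hm).2.2.1, (hcond m hm).2.2.1, (hT' m hm).1, (hT' m hm).2.1, (hT' m hm).2.2.1⟩)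
    W φ ψ hW hφ hψ sφ sψ
  have e4 := hUB3 L Y M1 κ A B hSq hY1 T' (fun m hm => ⟨(hpar m hm).1, (hT' m hm).1, (hT' m hm).2.1,
    (hT' m hm).2.2.2⟩) (fun m v => W m v - sm M (T m) (W m) v) φ ψ (by
    intro m v
    have g1 := hW m v
    have g2 := CU3_sm M (T m) (W m) (hW m) v
    show |W m v - sm M (T m) (W m) v| ≤ 1
    rw [abs_le]
    constructor <;> linarith [g1.1, g1.2, g2.1, g2.2]) hφ hψ sφ sψ
  have e5 : (L : ℝ) * √(L : ℝ) = (L : ℝ) ^ 2 / √(L : ℝ) := by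
    rw [eq_div_iff hs0.ne', mul_assoc, hs2]
    ring
  have e6 : (κ + 21 / √(L : ℝ)) * ((L : ℝ) * Y) ^ 2 =
      κ * (L : ℝ) ^ 2 * (Y : ℝ) ^ 2 + 21 * (L * √(L : ℝ)) * (Y : ℝ) ^ 2 := by
    rw [e5]
    ring
  rw [e2, e6]
  exact (abs_add_le _ _).trans (add_le_add e3 e4)

end Pool.Agent.OV
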